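import Mathlib

set_option autoImplicit false

namespace Pool.Agent.Results.MP_9d843c_co.Full

open Finset

/-- vectors in `{-1,0,1}^n` with exactly four nonzero coordinates -/
def V (n : ℕ) : Type :=
  {v : Fin n → ℤ // (∀ i, v i = -1 ∨ v i = 0 ∨ v i = 1) ∧ (univ.filter (fun i => v i ≠ 0)).card = 4}

/-- the graph `J_±(n,4,0)`: distinct vectors are adjacent iff they are orthogonal -/
def J (n : ℕ) : SimpleGraph (V n) :=
  SimpleGraph.fromRel (fun u v => ∑ i, u.1 i * v.1 i = 0)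

lemma cs {α β : Type} [DecidableEq α] [DecidableEq β] (s : Finset α) (φ : α → β) (t : Finset β)
    (h : ∀ x ∈ s, φ x ∈ t) :
    s.card ^ 2 ≤ t.card * ((s ×ˢ s).filter (fun z => φ z.1 = φ z.2)).card := by
  rw [card_eq_sum_card_fiberwise (f := φ) (t := t) h]
  refine le_trans sq_sum_le_card_mul_sum_sq (Nat.mul_le_mul_left _ (le_of_eq ?_))
  rw [card_eq_sum_card_fiberwise (f := fun z : α × α => φ z.1) (t := t)
    (s := (s ×ˢ s).filter (fun z => φ z.1 = φ z.2))
    (fun z hz => h _ (mem_product.1 (mem_filter.1 hz).1).1)]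
  refine sum_congr rfl (fun b _ => ?_)
  rw [sq, ← card_product]
  congr 1
  ext z
  simp only [mem_product, mem_filter]
  constructor
  · rintro ⟨⟨h1, h2⟩, h3, h4⟩; exact ⟨⟨⟨h1, h3⟩, h2.trans h4.symm⟩, h2⟩
  · rintro ⟨⟨⟨h1, h3⟩, h2⟩, h4⟩; exact ⟨⟨h1, h4⟩, h3, h2.symm.trans h4⟩

lemma count {α β : Type} [DecidableEq α] [DecidableEq β] (L : Finset α) (τ : α → α → β)
    (t : α → Finset β) (D : ℕ) (hL : 0 < L.card) (h : ∀ x y, τ x y ∈ t x)
    (ht : ∀ x ∈ L, (t x).card ≤ D) :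
    L.card ^ 4 ≤ D ^ 4 * (((L ×ˢ L) ×ˢ (L ×ˢ L)).filter (fun q =>
      τ q.2.1 q.1.1 = τ q.2.1 q.1.2 ∧ τ q.2.2 q.1.1 = τ q.2.2 q.1.2 ∧
      τ q.1.1 q.2.1 = τ q.1.1 q.2.2 ∧ τ q.1.2 q.2.1 = τ q.1.2 q.2.2)).card := by
  let W : α × α → Finset α := fun p => L.filter (fun x => τ x p.1 = τ x p.2)
  have h1 : L.card * L.card ^ 2 ≤ D * ∑ p ∈ L ×ˢ L, (W p).card := by
    simp only [W, card_filter]
    rw [sum_comm, mul_sum, ← smul_eq_mul]
    apply card_nsmul_le_sum
    intro x hx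
    rw [← card_filter]
    exact le_trans (cs L (τ x) (t x) (fun y _ => h x y)) (Nat.mul_le_mul_right _ (ht x hx))
  have h2 : (∑ p ∈ L ×ˢ L, (W p).card) ^ 2 ≤ L.card * L.card * ∑ p ∈ L ×ˢ L, (W p).card ^ 2 := by
    rw [← card_product]; exact sq_sum_le_card_mul_sum_sq
  set N := (((L ×ˢ L) ×ˢ (L ×ˢ L)).filter (fun q =>
      τ q.2.1 q.1.1 = τ q.2.1 q.1.2 ∧ τ q.2.2 q.1.1 = τ q.2.2 q.1.2 ∧
      τ q.1.1 q.2.1 = τ q.1.1 q.2.2 ∧ τ q.1.2 q.2.1 = τ q.1.2 q.2.2)).card with hN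
  have h3 : ∑ p ∈ L ×ˢ L, (W p).card ^ 2 ≤ D * D * N := by
    conv_rhs => rw [hN, card_filter, sum_product, mul_sum]
    refine sum_le_sum (fun p hp => ?_)
    rw [← card_filter]
    refine le_trans (cs (W p) (fun x => (τ p.1 x, τ p.2 x)) (t p.1 ×ˢ t p.2)
      (fun x _ => mem_product.2 ⟨h _ _, h _ _⟩)) (Nat.mul_le_mul ?_ (card_le_card ?_))
    · rw [card_product]
      exact Nat.mul_le_mul (ht _ (mem_product.1 hp).1) (ht _ (mem_product.1 hp).2)
    · intro z hz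
      simp only [W, mem_filter, mem_product, Prod.mk.injEq] at hz ⊢
      tauto
  have h4 := Nat.pow_le_pow_left h1 2
  refine Nat.le_of_mul_le_mul_left (c := L.card * L.card) ?_ (by positivity)
  calc L.card * L.card * L.card ^ 4 = (L.card * L.card ^ 2) ^ 2 := by ring
    _ ≤ D ^ 2 * (∑ p ∈ L ×ˢ L, (W p).card) ^ 2 := by rw [← mul_pow]; exact h4
    _ ≤ D ^ 2 * (L.card * L.card * (D * D * N)) :=
      Nat.mul_le_mul_left _ (le_trans h2 (Nat.mul_le_mul_left _ h3))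
    _ = L.card * L.card * (D ^ 4 * N) := by ring

variable {n K : ℕ}

def sp (v : V n) : Finset (Fin n) := univ.filter (fun i => v.1 i ≠ 0)

lemma F1 (f : (J n).Coloring (Fin K)) {u v : V n} (h : f u = f v) : ∃ z ∈ sp u, z ∈ sp v := by
  by_cases e : u = v
  · subst e
    obtain ⟨z, hz⟩ : (sp u).Nonempty := card_pos.1 (by rw [sp, u.2.2]; norm_num)
    exact ⟨z, hz, hz⟩
  by_contra hc
  push Not at hc
  refine f.valid ((SimpleGraph.fromRel_adj _ _ _).2 ⟨e, Or.inl (sum_eq_zero (fun i _ => ?_))⟩) h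
  by_contra q
  exact hc i (by simp [sp, left_ne_zero_of_mul q]) (by simp [sp, right_ne_zero_of_mul q])

lemma F2 (f : (J n).Coloring (Fin K)) {u v : V n} (h : f u = f v) {i j : Fin n} (hij : i ≠ j)
    (a1 : u.1 i ≠ 0) (a2 : u.1 j ≠ 0) (a3 : v.1 i ≠ 0) (a4 : v.1 j ≠ 0)
    (hs : u.1 i * u.1 j ≠ v.1 i * v.1 j) : ∃ z ∈ sp u, z ∈ sp v ∧ z ≠ i ∧ z ≠ j := by
  have e : u ≠ v := by rintro rfl; exact hs rfl
  by_contra hc
  push Not at hc
  refine f.valid ((SimpleGraph.fromRel_adj _ _ _).2 ⟨e, Or.inl ?_⟩) h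
  rw [← sum_subset (subset_univ {i, j}), sum_pair hij]
  · rcases u.2.1 i with b1 | b1 | b1 <;> rcases u.2.1 j with b2 | b2 | b2 <;>
      rcases v.2.1 i with b3 | b3 | b3 <;> rcases v.2.1 j with b4 | b4 | b4 <;> simp_all
  · intro z _ hz
    by_contra q
    simp only [mem_insert, mem_singleton, not_or] at hz
    exact hz.2 (hc z (by simp [sp, left_ne_zero_of_mul q]) (by simp [sp, right_ne_zero_of_mul q])
      hz.1)

def wf (a b c d : Fin n) : Fin n → ℤ :=
  fun x => if x = a ∨ x = c then 1 else if x = b ∨ x = d then -1 else 0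

lemma wf_sp (a b c d : Fin n) : univ.filter (fun i => wf a b c d i ≠ 0) = {a, b, c, d} := by
  ext x
  rw [mem_filter]
  simp only [mem_univ, true_and, mem_insert, mem_singleton]
  unfold wf
  by_cases h1 : x = a ∨ x = c
  · rw [if_pos h1]; simp only [ne_eq, one_ne_zero, not_false_eq_true, true_iff]; tauto
  · rw [if_neg h1]
    by_cases h2 : x = b ∨ x = d
    · rw [if_pos h2]; simp only [ne_eq, neg_eq_zero, one_ne_zero, not_false_eq_true, true_iff]; tauto
    · rw [if_neg h2]; simp only [ne_eq, not_true_eq_false, false_iff]; tauto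

def box (S : Finset (Fin n)) : Finset ((Fin n × Fin n) × (Fin n × Fin n)) := (S ×ˢ S) ×ˢ (S ×ˢ S)

lemma box_card (i j z y : Fin n) : (box {i, j, z, y}).card ≤ 256 := by
  have : ({i, j, z, y} : Finset (Fin n)).card ≤ 4 := card_le_four
  simp only [box, card_product]
  exact Nat.mul_le_mul (Nat.mul_le_mul this this) (Nat.mul_le_mul this this)

lemma mem_box {a b c d i j z : Fin n} (hi : i ∈ ({a, b, c, d} : Finset (Fin n)))
    (hj : j ∈ ({a, b, c, d} : Finset (Fin n))) (hz : z ∈ ({a, b, c, d} : Finset (Fin n)))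
    (h1 : i ≠ j) (h2 : z ≠ i) (h3 : z ≠ j) : ∃ y, ((a, b), (c, d)) ∈ box {i, j, z, y} := by
  have : Nonempty (Fin n) := ⟨a⟩
  have hs : ({i, j, z} : Finset (Fin n)) ⊆ {a, b, c, d} := by
    simp only [insert_subset_iff, singleton_subset_iff]; exact ⟨hi, hj, hz⟩
  have h4 : ({a, b, c, d} : Finset (Fin n)).card ≤ 4 := card_le_four
  have h5 : ({i, j, z} : Finset (Fin n)).card = 3 := card_eq_three.2 ⟨i, j, z, h1, h2.symm, h3.symm, rfl⟩
  obtain ⟨y, hy⟩ := card_le_one_iff_subset_singleton.1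
    (show (({a, b, c, d} : Finset (Fin n)) \ {i, j, z}).card ≤ 1 by
      rw [card_sdiff_of_subset hs]; omega)
  have k : ∀ x ∈ ({a, b, c, d} : Finset (Fin n)), x ∈ ({i, j, z, y} : Finset (Fin n)) := by
    intro x hx
    by_cases q : x ∈ ({i, j, z} : Finset (Fin n))
    · simp only [mem_insert, mem_singleton] at q ⊢; tauto
    · have := hy (mem_sdiff.2 ⟨hx, q⟩)
      simp only [mem_insert, mem_singleton] at this ⊢; tauto
  exact ⟨y, mem_product.2 ⟨mem_product.2 ⟨k a (by simp), k b (by simp)⟩,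
    mem_product.2 ⟨k c (by simp), k d (by simp)⟩⟩⟩

def mk (a b c d : Fin n) (h : a ≠ b ∧ a ≠ c ∧ a ≠ d ∧ b ≠ c ∧ b ≠ d ∧ c ≠ d) : V n :=
  ⟨wf a b c d, fun i => by unfold wf; split_ifs <;> simp, by
    obtain ⟨h1, h2, h3, h4, h5, h6⟩ := h
    rw [wf_sp, card_insert_of_notMem (by simp [*]), card_insert_of_notMem (by simp [*]),
      card_pair h6]⟩

lemma main (C n : ℕ) (hn : 16 * (2 ^ (8 * C)) ^ 4 * (4096 * C + 256) < n) :
    ¬ (J n).Colorable (C * n) := by
  classical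
  rintro ⟨f⟩
  have hD : 0 < (2 ^ (8 * C)) ^ 4 := by positivity
  have h4 : 4 ≤ n := by nlinarith
  have : Nonempty (V n) := ⟨mk ⟨0, by omega⟩ ⟨1, by omega⟩ ⟨2, by omega⟩ ⟨3, by omega⟩
    (by simp [Fin.ext_iff])⟩
  let u : Fin (C * n) → V n := fun k => Classical.epsilon (fun v => f v = k)
  let p : Fin (C * n) → Fin n → Fin n → V n := fun k i j =>
    Classical.epsilon (fun v => f v = k ∧ v.1 i ≠ 0 ∧ v.1 j ≠ 0)
  let R : Fin n → Finset (Fin (C * n)) := fun x => univ.filter (fun k => x ∈ sp (u k))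
  let τ : Fin n → Fin n → Finset (Fin (C * n)) := fun x j =>
    (R x).filter (fun k => (p k x j).1 x * (p k x j).1 j = 1)
  let L : Finset (Fin n) := univ.filter (fun x => (R x).card ≤ 8 * C)
  have hsp : ∀ v : V n, (sp v).card = 4 := fun v => v.2.2
  have hR : ∑ x, (R x).card = C * n * 4 := by
    simp only [R, card_filter]
    rw [sum_comm, sum_congr rfl (g := fun _ => 4) (fun k _ => by
      rw [← card_filter, filter_mem_eq_inter, univ_inter, hsp])]
    simp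
  have hL : n ≤ 2 * L.card := by
    have a1 := card_nsmul_le_sum (univ.filter (fun x => ¬ (R x).card ≤ 8 * C))
      (fun x => (R x).card) (8 * C + 1) (fun x hx => by have := (mem_filter.1 hx).2; omega)
    have a2 : ∑ x ∈ univ.filter (fun x => ¬ (R x).card ≤ 8 * C), (R x).card ≤ ∑ x, (R x).card :=
      sum_le_sum_of_subset (filter_subset _ _)
    have a3 : L.card + (univ.filter (fun x => ¬ (R x).card ≤ 8 * C)).card = n := by
      rw [card_filter_add_card_filter_not]; simp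
    rw [smul_eq_mul] at a1
    rw [hR] at a2
    by_contra hc
    have a4 : n ≤ 2 * (univ.filter (fun x => ¬ (R x).card ≤ 8 * C)).card := by omega
    have a5 := Nat.mul_le_mul_right (8 * C + 1) a4
    nlinarith
  have hc := count L τ (fun x => (R x).powerset) (2 ^ (8 * C)) (by omega)
    (fun x y => mem_powerset.2 (filter_subset _ _)) (fun x hx => by
      rw [card_powerset]; exact Nat.pow_le_pow_right (by norm_num) (mem_filter.1 hx).2)
  let Bad := (univ : Finset (Fin (C * n))).biUnion (fun k => (sp (u k)).biUnion (fun i =>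
    univ.biUnion (fun j => (sp (p k i j)).biUnion (fun z => univ.biUnion (fun y =>
      box {i, j, z, y})))))
  let Deg := (univ : Finset (Fin n)).biUnion (fun x => univ.biUnion (fun y => univ.biUnion
    (fun z => box {x, y, z, z})))
  have b1 : Bad.card ≤ C * n * (4 * (n * (4 * (n * 256)))) := by
    refine le_trans (card_biUnion_le_card_mul _ _ _ (fun k _ => ?_)) (by simp; exact le_rfl)
    refine le_trans (card_biUnion_le_card_mul _ _ _ (fun i _ => ?_)) (by rw [hsp])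
    refine le_trans (card_biUnion_le_card_mul _ _ _ (fun j _ => ?_)) (by simp; exact le_rfl)
    refine le_trans (card_biUnion_le_card_mul _ _ _ (fun z _ => ?_)) (by rw [hsp])
    exact le_trans (card_biUnion_le_card_mul _ _ _ (fun y _ => box_card _ _ _ _)) (by simp)
  have b2 : Deg.card ≤ n * (n * (n * 256)) := by
    refine le_trans (card_biUnion_le_card_mul _ _ _ (fun k _ => ?_)) (by simp; exact le_rfl)
    refine le_trans (card_biUnion_le_card_mul _ _ _ (fun j _ => ?_)) (by simp; exact le_rfl)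
    exact le_trans (card_biUnion_le_card_mul _ _ _ (fun y _ => box_card _ _ _ _)) (by simp)
  have key : ∀ (v : V n) (a b c d i j j' : Fin n), sp v = {a, b, c, d} → i ∈ sp (u (f v)) →
      i ≠ j → i ≠ j' → v.1 i * v.1 j = 1 → v.1 i * v.1 j' = -1 → τ i j = τ i j' →
      ((a, b), (c, d)) ∈ Bad := by
    intro v a b c d i j j' hv hi n1 n2 s1 s2 ht
    have z1 : v.1 i ≠ 0 := left_ne_zero_of_mul (by rw [s1]; norm_num)
    have fin : ∀ l, i ≠ l → v.1 l ≠ 0 → (p (f v) i l).1 i * (p (f v) i l).1 l ≠ v.1 i * v.1 l →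
        ((a, b), (c, d)) ∈ Bad := by
      intro l nl zl hs
      have sp1 := Classical.epsilon_spec
        (p := fun w : V n => f w = f v ∧ w.1 i ≠ 0 ∧ w.1 l ≠ 0) ⟨v, rfl, z1, zl⟩
      obtain ⟨z, hz1, hz2, hz3, hz4⟩ := F2 f sp1.1 nl sp1.2.1 sp1.2.2 z1 zl hs
      obtain ⟨y, hy⟩ := mem_box (a := a) (b := b) (c := c) (d := d) (i := i) (j := l) (z := z)
        (by rw [← hv]; simp [sp, z1]) (by rw [← hv]; simp [sp, zl]) (hv ▸ hz2) nl hz3 hz4
      exact mem_biUnion.2 ⟨f v, mem_univ _, mem_biUnion.2 ⟨i, hi, mem_biUnion.2 ⟨l, mem_univ _,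
        mem_biUnion.2 ⟨z, hz1, mem_biUnion.2 ⟨y, mem_univ _, hy⟩⟩⟩⟩⟩
    by_cases e : (p (f v) i j).1 i * (p (f v) i j).1 j = 1
    · have m1 : f v ∈ τ i j := mem_filter.2 ⟨mem_filter.2 ⟨mem_univ _, hi⟩, e⟩
      rw [ht] at m1
      exact fin j' n2 (right_ne_zero_of_mul (by rw [s2]; norm_num))
        (by rw [(mem_filter.1 m1).2, s2]; norm_num)
    · exact fin j n1 (right_ne_zero_of_mul (by rw [s1]; norm_num)) (by rw [s1]; exact e)
  have hsub : ((L ×ˢ L) ×ˢ (L ×ˢ L)).filter (fun q =>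
      τ q.2.1 q.1.1 = τ q.2.1 q.1.2 ∧ τ q.2.2 q.1.1 = τ q.2.2 q.1.2 ∧
      τ q.1.1 q.2.1 = τ q.1.1 q.2.2 ∧ τ q.1.2 q.2.1 = τ q.1.2 q.2.2) ⊆ Bad ∪ Deg := by
    rintro ⟨⟨a, b⟩, c, d⟩ hq
    obtain ⟨t1, t2, t3, t4⟩ := (mem_filter.1 hq).2
    simp only at t1 t2 t3 t4
    by_cases h : a ≠ b ∧ a ≠ c ∧ a ≠ d ∧ b ≠ c ∧ b ≠ d ∧ c ≠ d
    · apply mem_union_left
      have hv : sp (mk a b c d h) = {a, b, c, d} := wf_sp a b c d
      have su := Classical.epsilon_spec (p := fun w : V n => f w = f (mk a b c d h)) ⟨_, rfl⟩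
      obtain ⟨i, hi1, hi2⟩ := F1 f su
      have h' := h
      obtain ⟨h1, h2, h3, h4, h5, h6⟩ := h'
      have va : (mk a b c d h).1 a = 1 := by simp [mk, wf]
      have vc : (mk a b c d h).1 c = 1 := by simp [mk, wf]
      have vb : (mk a b c d h).1 b = -1 := by simp [mk, wf, h1.symm, h4]
      have vd : (mk a b c d h).1 d = -1 := by simp [mk, wf, h3.symm, h6.symm]
      rw [hv] at hi2
      simp only [mem_insert, mem_singleton] at hi2
      rcases hi2 with rfl | rfl | rfl | rfl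
      · exact key _ _ _ _ _ _ c d hv hi1 h2 h3 (by simp [va, vc]) (by simp [va, vd]) t3
      · exact key _ _ _ _ _ _ d c hv hi1 h5 h4 (by simp [vb, vd]) (by simp [vb, vc]) t4.symm
      · exact key _ _ _ _ _ _ a b hv hi1 h2.symm h4.symm (by simp [va, vc]) (by simp [vb, vc]) t1
      · exact key _ _ _ _ _ _ b a hv hi1 h5.symm h3.symm (by simp [vb, vd]) (by simp [va, vd])
          t2.symm
    · apply mem_union_right
      have dg : ∀ x y z : Fin n, ((a, b), (c, d)) ∈ box {x, y, z, z} → ((a, b), (c, d)) ∈ Deg :=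
        fun x y z hh => mem_biUnion.2 ⟨x, mem_univ _, mem_biUnion.2 ⟨y, mem_univ _,
          mem_biUnion.2 ⟨z, mem_univ _, hh⟩⟩⟩
      simp only [not_and_or, not_not] at h
      rcases h with h | h | h | h | h | h
      · exact dg a c d (by simp [box, h])
      · exact dg a b d (by simp [box, h])
      · exact dg a b c (by simp [box, h])
      · exact dg a b d (by simp [box, h])
      · exact dg a b c (by simp [box, h])
      · exact dg a b c (by simp [box, h])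
  have h5 := le_trans (card_le_card hsub) (le_trans (card_union_le _ _) (Nat.add_le_add b1 b2))
  have h6 := le_trans hc (Nat.mul_le_mul_left _ h5)
  have h7 : n ^ 4 ≤ (2 * L.card) ^ 4 := Nat.pow_le_pow_left hL 4
  have h8 : 16 * (2 ^ (8 * C)) ^ 4 * (4096 * C + 256) * n ^ 3 < n * n ^ 3 :=
    Nat.mul_lt_mul_of_pos_right hn (by positivity)
  have e1 : 16 * (2 ^ (8 * C)) ^ 4 * (4096 * C + 256) * n ^ 3 = 16 * ((2 ^ (8 * C)) ^ 4 *
    (C * n * (4 * (n * (4 * (n * 256)))) + n * (n * (n * 256)))) := by ring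
  have e2 : n * n ^ 3 = n ^ 4 := by ring
  have e3 : (2 * L.card) ^ 4 = 16 * L.card ^ 4 := by ring
  omega

lemma expl (C n : ℕ) (hn : 2 ^ (33 * C + 16) ≤ n) :
    ((C * n : ℕ) : ℕ∞) < (J n).chromaticNumber := by
  refine lt_of_not_ge (fun h => main C n (lt_of_lt_of_le ?_ hn)
    (SimpleGraph.chromaticNumber_le_iff_colorable.1 h))
  have h1 : C < 2 ^ C := Nat.lt_two_pow_self
  have h2 : 4096 * C + 256 < 4096 * 2 ^ C := by omega
  calc 16 * (2 ^ (8 * C)) ^ 4 * (4096 * C + 256) < 16 * (2 ^ (8 * C)) ^ 4 * (4096 * 2 ^ C) :=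
        Nat.mul_lt_mul_of_pos_left h2 (by positivity)
    _ = 2 ^ (33 * C + 16) := by ring

theorem result :
    (∀ C n : ℕ, 2 ^ (33 * C + 16) ≤ n → ((C * n : ℕ) : ℕ∞) < (J n).chromaticNumber) ∧
    ∀ C : ℕ, ∃ n₀ : ℕ, ∀ n ≥ n₀, ((C * n : ℕ) : ℕ∞) < (J n).chromaticNumber :=
  ⟨expl, fun C => ⟨_, expl C⟩⟩

end Pool.Agent.Results.MP_9d843c_co.Full
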